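import Pool.Agent.MP_ed9623_an.H77.SpecA

/-! Multiplication of a solution by a linear weight. -/

open MeasureTheory Filter Topology Set

namespace Pool.Agent.MP_ed9623_an.H77

namespace Wt

theorem fubini {V : Type} [NormedAddCommGroup V] [NormedSpace ℝ V] [CompleteSpace V] {G : ℝ → V}
    {a b : ℝ} (hab : a ≤ b) (hG : IntervalIntegrable G volume a b) :
    ∫ r in a..b, ∫ x in a..r, G x = ∫ x in a..b, (b - x) • G x := by
  have hi : Integrable (Function.uncurry fun r x : ℝ => (Iic r).indicator G x)
      ((volume.restrict (Ioc a b)).prod (volume.restrict (Ioc a b))) := by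
    have h1 : Integrable (fun p : ℝ × ℝ => G p.2)
        ((volume.restrict (Ioc a b)).prod (volume.restrict (Ioc a b))) :=
      Integrable.comp_snd hG.1 _
    have h2 := h1.indicator (measurableSet_le measurable_snd measurable_fst)
    refine h2.congr (Eventually.of_forall fun p => ?_)
    simp only [Function.uncurry, indicator, mem_Iic, Set.mem_ofPred_eq]
  have h := integral_integral_swap hi
  rw [intervalIntegral.integral_of_le hab, intervalIntegral.integral_of_le hab]
  refine Eq.trans ?_ (h.trans ?_)
  · refine setIntegral_congr_fun measurableSet_Ioc fun r hr => ?_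
    rw [setIntegral_indicator measurableSet_Iic, Ioc_inter_Iic, min_eq_right hr.2,
      intervalIntegral.integral_of_le hr.1.le]
  · refine setIntegral_congr_fun measurableSet_Ioc fun x hx => ?_
    have e : (fun r : ℝ => (Iic r).indicator G x) = (Ici x).indicator fun _ => G x := by
      funext r
      simp only [indicator, mem_Iic, mem_Ici]
    have e2 : Ioc a b ∩ Ici x = Icc x b := by
      ext r
      simp only [mem_inter_iff, mem_Ioc, mem_Ici, mem_Icc]
      exact ⟨fun h => ⟨h.2, h.1.2⟩, fun h => ⟨⟨hx.1.trans_le h.1, h.2⟩, h.1⟩⟩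
    rw [e, setIntegral_indicator measurableSet_Ici, e2, setIntegral_const,
      Real.volume_real_Icc_of_le hx.2]

end Wt

theorem wt : OfWt := by
  intro H V _ _ _ _ _ _ ι I y Z G hI h s
  have cP : ContinuousOn (fun r => adj ι (y r)) I := (adj ι).continuous.comp_continuousOn h.cont
  have cw : ∀ c : ℝ, Continuous fun r : ℝ => r - c := fun c => continuous_sub_right c
  have key : ∀ a ∈ I, ∀ b ∈ I, a ≤ b → adj ι ((b - s) • y b) - adj ι ((a - s) • y a) =
      ∫ r in a..b, ((r - s) • G r + adj ι (y r)) := by
    intro a ha b hb hab
    have iG := h.lG.ii ha hb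
    have i1 := (h.lG.csmul (cw s)).ii ha hb
    have i2 := (h.lG.csmul (continuous_sub_left b)).ii ha hb
    have iP := (cP.mono (hI.uIcc ha hb)).intervalIntegrable (μ := volume)
    have e1 : ∫ r in a..b, (adj ι (y r) - adj ι (y a)) = ∫ x in a..b, (b - x) • G x := by
      rw [← Wt.fubini hab iG]
      exact intervalIntegral.integral_congr fun r hr => h.eq a ha r (hI.uIcc ha hb hr)
    rw [intervalIntegral.integral_sub iP intervalIntegrable_const,
      intervalIntegral.integral_const, sub_eq_iff_eq_add] at e1
    have e2 : (∫ r in a..b, (r - s) • G r) + ∫ x in a..b, (b - x) • G x =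
        (b - s) • (adj ι (y b) - adj ι (y a)) := by
      rw [← intervalIntegral.integral_add i1 i2, h.eq a ha b hb, ← intervalIntegral.integral_smul]
      refine intervalIntegral.integral_congr fun r _ => ?_
      rw [← add_smul]
      congr 1
      ring
    rw [intervalIntegral.integral_add i1 iP, e1, ← add_assoc, e2, map_smul, map_smul]
    module
  refine ⟨(cw s).continuousOn.smul h.cont, h.lZ.csmul (cw s),
    (h.lG.csmul (cw s)).add (Loc2.of_cont hI cP), ?_, fun a ha b hb => ?_⟩
  · filter_upwards [h.lift] with t e ht
    rw [map_smul, e ht]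
  · rcases le_total a b with hab | hab
    · exact key a ha b hb hab
    · rw [intervalIntegral.integral_symm, ← key b hb a ha hab, neg_sub]

end Pool.Agent.MP_ed9623_an.H77
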